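import Pool.Agent.CTS.Main

/-!
# MP_7d6c83_nt: congruences for alternating sums of `C(2k,k)^2 T_k`

Part (c): positivity, and integrality at every prime `p > 3` with `p^2 > 2n`.
-/

set_option autoImplicit false

namespace Pool.Agent.Results.MP_7d6c83_nt.LargePrimes

open Finset Polynomial

/-- the central trinomial coefficient: the coefficient of `X^k` in `(1+X+X^2)^k` -/
noncomputable def T (k : ℕ) : ℤ := ((1 + X + X ^ 2 : ℤ[X]) ^ k).coeff k

/-- the sum of parts (b) and (c), with upper summation limit `m - 1` -/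
noncomputable def S' (m : ℕ) : ℤ :=
  ∑ k ∈ range m, (-1) ^ k * (105 * (k : ℤ) + 44) * (((2 * k).choose k : ℕ) : ℤ) ^ 2 * T k

/-- the rational numbers `a_n` of part (c) -/
noncomputable def a (n : ℕ) : ℚ :=
  (-1) ^ (n - 1) / (2 * (n : ℚ) * (((2 * n).choose n : ℕ) : ℚ)) * ((S' n : ℤ) : ℚ)

theorem a_eq (n : ℕ) : a n = Pool.Agent.CTS.aa n := rfl

theorem result : ∀ n : ℕ, 1 ≤ n → 0 < a n ∧
    ∀ p : ℕ, p.Prime → 3 < p → 2 * n < p ^ 2 → ¬ p ∣ (a n).den := by
  intro n hn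
  rw [a_eq]
  exact ⟨Pool.Agent.CTS.aa_pos hn, fun p hp h3 h => Pool.Agent.CTS.aa_den hp h3 hn h⟩

end Pool.Agent.Results.MP_7d6c83_nt.LargePrimes
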