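import Pool.Agent.CTS.Main

/-!
# MP_7d6c83_nt: congruences for alternating sums of `C(2k,k)^2 T_k`

Part (b) modulo `p^2`.
-/

set_option autoImplicit false

namespace Pool.Agent.Results.MP_7d6c83_nt.ModPSquared

open Finset Polynomial

/-- the central trinomial coefficient: the coefficient of `X^k` in `(1+X+X^2)^k` -/
noncomputable def T (k : ℕ) : ℤ := ((1 + X + X ^ 2 : ℤ[X]) ^ k).coeff k

/-- the sum of parts (b) and (c), with upper summation limit `m - 1` -/
noncomputable def S' (m : ℕ) : ℤ :=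
  ∑ k ∈ range m, (-1) ^ k * (105 * (k : ℤ) + 44) * (((2 * k).choose k : ℕ) : ℤ) ^ 2 * T k

theorem S'_eq (m : ℕ) : S' m = Pool.Agent.CTS.Dsum m := rfl

theorem result : ∀ p : ℕ, p.Prime → 3 < p →
    (p : ℤ) ^ 2 ∣ S' p - (p : ℤ) * (20 + 24 * jacobiSym (p : ℤ) 3) := by
  intro p hp h
  rw [S'_eq]
  exact Pool.Agent.CTS.b_mod_sq hp h

end Pool.Agent.Results.MP_7d6c83_nt.ModPSquared
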