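import Pool.Agent.CVH.Fin

/-!
# MP_7d6c83_nt: congruences for alternating sums of `C(2k,k)^2 T_k`

Statement (a) in full.
-/

set_option autoImplicit false

namespace Pool.Agent.Results.MP_7d6c83_nt.StatementA

open Finset Polynomial

/-- the central trinomial coefficient: the coefficient of `X^k` in `(1+X+X^2)^k` -/
noncomputable def T (k : ℕ) : ℤ := ((1 + X + X ^ 2 : ℤ[X]) ^ k).coeff k

/-- the sum of part (a), with upper summation limit `m - 1` -/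
noncomputable def S (m : ℕ) : ℤ :=
  ∑ k ∈ range m, (-1) ^ k * (((2 * k).choose k : ℕ) : ℤ) ^ 2 * T k

theorem S_eq (m : ℕ) : S m = Pool.Agent.CTS.Ssum m := rfl

theorem result : ∀ p : ℕ, p.Prime → 3 < p →
    ((p % 15 = 1 ∨ p % 15 = 4) → ∀ x y : ℤ, (p : ℤ) = x ^ 2 + 15 * y ^ 2 →
      S p ≡ 4 * x ^ 2 - 2 * p [ZMOD (p : ℤ) ^ 2]) ∧
    ((p % 15 = 2 ∨ p % 15 = 8) → ∀ x y : ℤ, (p : ℤ) = 3 * x ^ 2 + 5 * y ^ 2 →
      S p ≡ 2 * p - 12 * x ^ 2 [ZMOD (p : ℤ) ^ 2]) ∧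
    ((p % 15 = 7 ∨ p % 15 = 11 ∨ p % 15 = 13 ∨ p % 15 = 14) →
      S p ≡ 0 [ZMOD (p : ℤ) ^ 2]) := by
  intro p hp h3
  obtain ⟨hA, hB, hC⟩ := Pool.Agent.CVH.statement_a p hp h3
  simp only [S_eq]
  exact ⟨hA, hB, hC⟩

end Pool.Agent.Results.MP_7d6c83_nt.StatementA
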